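import Mathlib

/-!
# Functional graphs: the double bunch

Combinatorial part of Trahtman's argument in the form needed for MP_644d19_co: if no choice function
of a relation on a finite set has a unique highest tree, two elements have one and the same option.
-/

set_option autoImplicit false

namespace Pool.Agent.H43.TR

open Function

variable {E : Type*}

/-- Some iterated image of `h` has exactly one element which is not periodic. -/
def UHT (h : E → E) : Prop :=
  ∃ (k : ℕ) (z : E), z ∉ periodicPts h ∧ (∃ x, h^[k] x = z) ∧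
    ∀ x, h^[k] x ∈ periodicPts h ∨ h^[k] x = z

theorem per_iter {h : E → E} {x : E} (hx : x ∈ periodicPts h) (n : ℕ) :
    h^[n] x ∈ periodicPts h := by
  obtain ⟨m, hm, hp⟩ := hx
  exact ⟨m, hm, hp.apply_iterate n⟩

theorem per_of_eq {h : E → E} {x : E} {a b : ℕ} (hab : a < b) (he : h^[a] x = h^[b] x) :
    h^[a] x ∈ periodicPts h := by
  refine ⟨b - a, by omega, ?_⟩
  show h^[b-a] (h^[a] x) = h^[a] x
  rw [← iterate_add_apply, Nat.sub_add_cancel hab.le, he]

theorem per_mono {h : E → E} {x : E} {a b : ℕ} (hab : a ≤ b) (ha : h^[a] x ∈ periodicPts h) :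
    h^[b] x ∈ periodicPts h := by
  have := per_iter ha (b - a)
  rwa [← iterate_add_apply, Nat.sub_add_cancel hab] at this

theorem uht_of {h : E → E} {k : ℕ} {z x₀ : E} (hz : z ∉ periodicPts h) (hz' : h z ∈ periodicPts h)
    (h0 : h^[k] x₀ = z) (hall : ∀ x, h^[k] x ∈ periodicPts h ∨ ∃ n ≤ k, h^[n] x = z) : UHT h := by
  refine ⟨k, z, hz, ⟨x₀, h0⟩, fun x => ?_⟩
  rcases hall x with h1 | ⟨n, hn, h1⟩
  · exact Or.inl h1
  · rcases hn.lt_or_eq with h2 | h2
    · left
      have : h^[n+1] x ∈ periodicPts h := by rw [iterate_succ_apply', h1]; exact hz'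
      exact per_mono h2 this
    · right; rw [← h2]; exact h1

theorem upd_iter [DecidableEq E] (φ : E → E) (q y x : E) (n : ℕ) (hx : ∀ i < n, φ^[i] x ≠ q) :
    (update φ q y)^[n] x = φ^[n] x := by
  induction n with
  | zero => rfl
  | succ n ih =>
    rw [iterate_succ_apply', iterate_succ_apply', ih (fun i hi => hx i (by omega)),
      update_of_ne (hx n (by omega))]

theorem upd_per [DecidableEq E] {φ : E → E} {q x : E} (y : E) (hx : x ∈ periodicPts φ)
    (hq : ∀ i, φ^[i] x ≠ q) : x ∈ periodicPts (update φ q y) := by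
  obtain ⟨m, hm, hp⟩ := hx
  refine ⟨m, hm, ?_⟩
  show (update φ q y)^[m] x = x
  rw [upd_iter φ q y x m (fun i _ => hq i)]
  exact hp

theorem upd_not_per [DecidableEq E] {φ : E → E} {q x : E} (y : E) (hx : x ∉ periodicPts φ)
    (hq : ∀ i, φ^[i] x ≠ q) : x ∉ periodicPts (update φ q y) := by
  rintro ⟨m, hm, hp⟩
  apply hx
  refine ⟨m, hm, ?_⟩
  have hp' : (update φ q y)^[m] x = x := hp
  rw [upd_iter φ q y x m (fun i _ => hq i)] at hp'
  exact hp'

theorem cyc_back {φ : E → E} {x r : E} (hx : x ∈ periodicPts φ) {n : ℕ} (hn : φ^[n] x = r) :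
    ∃ i < minimalPeriod φ r, φ^[i] r = x := by
  have hr : r ∈ periodicPts φ := hn ▸ per_iter hx n
  have hm : minimalPeriod φ r = minimalPeriod φ x := by
    rw [← hn]; exact minimalPeriod_apply_iterate hx n
  have hm0 : 0 < minimalPeriod φ r := minimalPeriod_pos_of_mem_periodicPts hr
  refine ⟨(minimalPeriod φ r * (n+1) - n) % minimalPeriod φ r, Nat.mod_lt _ hm0, ?_⟩
  rw [iterate_mod_minimalPeriod_eq, ← hn, ← iterate_add_apply]
  have h1 : minimalPeriod φ (φ^[n] x) * (n+1) - n + n = minimalPeriod φ x * (n+1) := by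
    rw [hn, ← hm]
    apply Nat.sub_add_cancel
    nlinarith
  rw [h1]
  exact (isPeriodicPt_minimalPeriod φ x).mul_const (n+1)

/-- The predecessor of `r` on its cycle. -/
theorem cyc_pred {φ : E → E} {s r : E} (hs : s ∈ periodicPts φ) (hsr : φ s = r) :
    φ^[minimalPeriod φ r - 1] r = s ∧ 0 < minimalPeriod φ r := by
  have hr : r ∈ periodicPts φ := hsr ▸ per_iter hs 1
  have hm : minimalPeriod φ r = minimalPeriod φ s := by
    rw [← hsr]; exact minimalPeriod_apply hs
  have hm0 : 0 < minimalPeriod φ r := minimalPeriod_pos_of_mem_periodicPts hr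
  refine ⟨?_, hm0⟩
  have h1 : φ^[minimalPeriod φ r - 1] (φ s) = φ^[minimalPeriod φ r] s := by
    rw [← iterate_succ_apply]; congr 2; omega
  rw [← hsr] at h1 ⊢
  rw [h1, hsr, hm]
  exact isPeriodicPt_minimalPeriod φ s

theorem cyc_inj {φ : E → E} {r : E} {i j : ℕ} (hi : i < minimalPeriod φ r)
    (hj : j < minimalPeriod φ r) (h : φ^[i] r = φ^[j] r) : i = j :=
  iterate_injOn_Iio_minimalPeriod hi hj h

theorem per_inj {φ : E → E} {x y : E} (hx : x ∈ periodicPts φ) (hy : y ∈ periodicPts φ)
    (h : φ x = φ y) : x = y :=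
  (bijOn_periodicPts φ).injOn hx hy h

theorem exists_level {φ : E → E} {L : ℕ} {x : E} (hL : φ^[L] x ∈ periodicPts φ) :
    ∃ n ≤ L, φ^[n] x ∈ periodicPts φ ∧ ∀ i < n, φ^[i] x ∉ periodicPts φ := by
  classical
  have hex : ∃ n, φ^[n] x ∈ periodicPts φ := ⟨L, hL⟩
  exact ⟨Nat.find hex, Nat.find_min' hex hL, Nat.find_spec hex, fun i hi => Nat.find_min hex hi⟩

/-- Every `x` reaches a periodic point before it sees the periodic point `q`; from there on either
`q` is never seen, or the periodic point lies on the cycle of `r`. -/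
theorem split {φ : E → E} {L : ℕ} (hL : ∀ x, φ^[L] x ∈ periodicPts φ) {q r : E}
    (hq : q ∈ periodicPts φ) (hqr : ∃ n, φ^[n] q = r) (x : E) :
    ∃ n ≤ L, φ^[n] x ∈ periodicPts φ ∧ (∀ i < n, φ^[i] x ≠ q) ∧
      ((∀ i, φ^[i] (φ^[n] x) ≠ q) ∨ ∃ i < minimalPeriod φ r, φ^[i] r = φ^[n] x) := by
  obtain ⟨n, hn, h1, h2⟩ := exists_level (hL x)
  refine ⟨n, hn, h1, fun i hi h => h2 i hi (h ▸ hq), ?_⟩
  by_cases h : ∀ i, φ^[i] (φ^[n] x) ≠ q
  · exact Or.inl h
  · push Not at h
    obtain ⟨i, hi⟩ := h
    obtain ⟨j, hj⟩ := hqr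
    right
    refine cyc_back (n := j + i) h1 ?_
    rw [iterate_add_apply, hi, hj]

theorem surgery [DecidableEq E] {φ : E → E} {L : ℕ} (hL : ∀ x, φ^[L] x ∈ periodicPts φ) {p r s y : E}
    (hp : ∀ i < L, φ^[i] p ∉ periodicPts φ) (hpr : φ^[L] p = r) (hs : s ∈ periodicPts φ)
    (hsr : φ s = r) (hy : y ≠ r) :
    UHT (update φ s y) ∨ periodicPts φ ⊂ periodicPts (update φ s y) := by
  obtain ⟨hm1, hm0⟩ := cyc_pred hs hsr
  set m := minimalPeriod φ r with hm
  have hr : r ∈ periodicPts φ := hpr ▸ hL p
  set h := update φ s y with hh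
  have hhs : h s = y := by rw [hh, update_self]
  -- the cycle up to `s`
  have hcs : ∀ i < m - 1, φ^[i] r ≠ s := fun i hi he => by
    have := cyc_inj (φ := φ) (r := r) (i := i) (j := m - 1) (by omega) (by omega) (by rw [he, hm1])
    omega
  have hc : ∀ i j, i + j ≤ m - 1 → h^[j] (φ^[i] r) = φ^[i + j] r := fun i j hij => by
    rw [hh, upd_iter, ← iterate_add_apply, Nat.add_comm]
    intro k hk
    rw [← iterate_add_apply]
    exact hcs _ (by omega)
  have hpL : h^[L] p = r := by
    rw [hh, upd_iter, hpr]
    intro i hi he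
    exact hp i hi (he ▸ hs)
  have hsplit := split hL hs ⟨1, hsr⟩
  obtain ⟨l, hl, hl1, hl2⟩ := exists_level (hL y)
  by_cases ha : ∀ i, φ^[i] y ≠ s
  · -- `y` never reaches `s`
    left
    have hyi : ∀ i, h^[i] y = φ^[i] y := fun i => upd_iter φ s y y i (fun j _ => ha j)
    have hsn : s ∉ periodicPts h := by
      rintro ⟨n, hn, hp'⟩
      have h1 : h^[n] s = s := hp'
      obtain ⟨n, rfl⟩ : ∃ k, n = k + 1 := ⟨n - 1, by omega⟩
      rw [iterate_succ_apply, hhs, hyi] at h1
      exact ha n h1
    have hwp : φ^[l] y ∈ periodicPts h := upd_per y hl1 (fun i => by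
      rw [← iterate_add_apply]; exact ha _)
    refine uht_of (k := L + (m - 1) + l) (z := h^[l] s) (x₀ := p) ?_ ?_ ?_ ?_
    · rcases Nat.eq_zero_or_pos l with h0 | h0
      · subst h0; exact hsn
      · obtain ⟨l, rfl⟩ : ∃ k, l = k + 1 := ⟨l - 1, by omega⟩
        rw [iterate_succ_apply, hhs, hyi]
        exact upd_not_per y (hl2 l (by omega)) (fun i => by
          rw [← iterate_add_apply]; exact ha _)
    · rw [← iterate_succ_apply' h l s, iterate_succ_apply, hhs, hyi]; exact hwp
    · rw [Nat.add_comm, iterate_add_apply, Nat.add_comm, iterate_add_apply, hpL]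
      have := hc 0 (m - 1) (by omega)
      rw [iterate_zero_apply, Nat.zero_add, hm1] at this
      rw [this]
    · intro x
      obtain ⟨n, hn, h1, h2, h3⟩ := hsplit x
      have h4 : h^[n] x = φ^[n] x := upd_iter φ s y x n h2
      rcases h3 with h3 | ⟨i, hi, h3⟩
      · left
        apply per_mono (a := n) (by omega)
        rw [h4]
        exact upd_per y h1 h3
      · right
        refine ⟨l + ((m - 1 - i) + n), by omega, ?_⟩
        rw [iterate_add_apply, iterate_add_apply, h4, ← h3, hc i (m - 1 - i) (by omega)]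
        congr 1
        rw [← hm1]; congr 2; omega
  · push Not at ha
    obtain ⟨i₀, hi₀⟩ := ha
    -- the root of `y` lies on the cycle
    have hw : ∃ j < m, φ^[j] r = φ^[l] y := by
      have h1 : ∃ n, φ^[n] (φ^[l] y) = r := by
        have hls : l ≤ i₀ := by
          by_contra hlt
          exact hl2 i₀ (by omega) (hi₀ ▸ hs)
        refine ⟨(i₀ - l) + 1, ?_⟩
        rw [← iterate_add_apply, show (i₀ - l) + 1 + l = i₀ + 1 by omega, iterate_succ_apply', hi₀, hsr]
      obtain ⟨n, hn⟩ := h1
      exact cyc_back hl1 hn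
    obtain ⟨j, hj, hjw⟩ := hw
    have hyl : ∀ i ≤ l, h^[i] y = φ^[i] y := fun i hi => upd_iter φ s y y i (fun k hk he =>
      hl2 k (by omega) (he ▸ hs))
    have hsj : h^[m - 1 - j] (φ^[j] r) = s := by
      rw [hc j (m - 1 - j) (by omega), ← hm1]; congr 2; omega
    have hyp : y ∈ periodicPts h := by
      refine ⟨1 + ((m - 1 - j) + l), by omega, ?_⟩
      show h^[1 + ((m - 1 - j) + l)] y = y
      rw [iterate_add_apply, iterate_add_apply, hyl l le_rfl, ← hjw, hsj]
      exact hhs
    have hwp : φ^[j] r ∈ periodicPts h := by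
      rw [hjw, ← hyl l le_rfl]; exact per_iter hyp l
    have hsp : s ∈ periodicPts h := by rw [← hsj]; exact per_iter hwp _
    rcases Nat.eq_zero_or_pos j with h0 | h0
    · right
      subst h0
      have hrp : r ∈ periodicPts h := hwp
      refine ⟨fun x hx => ?_, fun hsub => ?_⟩
      · by_cases hxs : ∀ i, φ^[i] x ≠ s
        · exact upd_per y hx hxs
        · push Not at hxs
          obtain ⟨i, hi⟩ := hxs
          obtain ⟨k, hk, hk'⟩ := cyc_back (r := r) (n := 1 + i) hx (by
            rw [iterate_add_apply, hi]; exact hsr)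
          have h1 := hc 0 k (by omega)
          rw [iterate_zero_apply, Nat.zero_add, hk'] at h1
          rw [← h1]; exact per_iter hrp k
      · have hyφ : y ∈ periodicPts φ := hsub hyp
        have hl0 : l = 0 := by
          by_contra hl0
          exact hl2 0 (by omega) hyφ
        subst hl0
        exact hy hjw.symm
    · left
      have hz0 : φ^[j - 1] r ∈ periodicPts φ := per_iter hr _
      have hzs : φ^[j - 1] r ≠ s := hcs _ (by omega)
      have hzw : h (φ^[j - 1] r) = φ^[j] r := by
        rw [hh, update_of_ne hzs, ← iterate_succ_apply' φ (j - 1) r]; congr 2; omega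
      refine uht_of (k := L + (j - 1)) (z := φ^[j - 1] r) (x₀ := p) ?_ ?_ ?_ ?_
      · intro hz
        rcases Nat.eq_zero_or_pos l with hl0 | hl0
        · subst hl0
          have h1 : h (φ^[j - 1] r) = h s := by rw [hzw, hjw, hhs]; rfl
          exact hzs (per_inj hz hsp h1)
        · have h2 : h^[l - 1] y ∈ periodicPts h := per_iter hyp _
          have h1 : h (φ^[j - 1] r) = h (h^[l - 1] y) := by
            rw [hzw, hjw, ← hyl l le_rfl, ← iterate_succ_apply' h (l - 1) y]; congr 2; omega
          have h3 := per_inj hz h2 h1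
          rw [hyl (l - 1) (by omega)] at h3
          exact hl2 (l - 1) (by omega) (h3 ▸ hz0)
      · rw [hzw]; exact hwp
      · rw [Nat.add_comm, iterate_add_apply, hpL]
        have := hc 0 (j - 1) (by omega)
        rwa [iterate_zero_apply, Nat.zero_add] at this
      · intro x
        obtain ⟨n, hn, h1, h2, h3⟩ := hsplit x
        have h4 : h^[n] x = φ^[n] x := upd_iter φ s y x n h2
        rcases h3 with h3 | ⟨i, hi, h3⟩
        · left
          apply per_mono (a := n) (by omega)
          rw [h4]
          exact upd_per y h1 h3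
        · rcases Nat.lt_or_ge i j with hij | hij
          · right
            refine ⟨(j - 1 - i) + n, by omega, ?_⟩
            rw [iterate_add_apply, h4, ← h3, hc i (j - 1 - i) (by omega)]
            congr 2; omega
          · left
            apply per_mono (a := n) (by omega)
            rw [h4, ← h3]
            have h5 := hc j (i - j) (by omega)
            rw [show j + (i - j) = i by omega] at h5
            rw [← h5]; exact per_iter hwp _

theorem upd_iter' [DecidableEq E] (φ : E → E) (q y x : E) (n : ℕ)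
    (hx : ∀ i < n, (update φ q y)^[i] x ≠ q) : (update φ q y)^[n] x = φ^[n] x := by
  induction n with
  | zero => rfl
  | succ n ih =>
    have h1 := ih (fun i hi => hx i (by omega))
    have h2 := hx n (by omega)
    rw [iterate_succ_apply', update_of_ne h2, h1, iterate_succ_apply']

theorem hitmax [Finite E] (h : E → E) (q : E) :
    ∃ (N : ℕ) (x₀ : E), h^[N] x₀ = q ∧ ∀ x n, h^[n] x = q → ∃ n' ≤ N, h^[n'] x = q := by
  obtain ⟨x₀, hx₀, hmax⟩ := Set.exists_max_image {x | ∃ n, h^[n] x = q}
    (fun x => sInf {n | h^[n] x = q}) (Set.toFinite _) ⟨q, 0, rfl⟩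
  refine ⟨sInf {n | h^[n] x₀ = q}, x₀, Nat.sInf_mem (s := {n | h^[n] x₀ = q}) hx₀, ?_⟩
  intro x n hn
  exact ⟨sInf {n | h^[n] x = q}, hmax x ⟨n, hn⟩, Nat.sInf_mem (s := {n | h^[n] x = q}) ⟨n, hn⟩⟩

theorem turn [Finite E] [DecidableEq E] {φ : E → E} {L : ℕ} (hL1 : 1 ≤ L)
    (hL : ∀ x, φ^[L] x ∈ periodicPts φ) {p : E} (hp : ∀ i < L, φ^[i] p ∉ periodicPts φ) (q : E) :
    UHT (update φ q p) ∨ (periodicPts φ).ncard < (periodicPts (update φ q p)).ncard ∨
      ((periodicPts φ).ncard ≤ (periodicPts (update φ q p)).ncard ∧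
        (∀ x, (update φ q p)^[L] x ∈ periodicPts (update φ q p)) ∧
        (∃ p', (∀ i < L, (update φ q p)^[i] p' ∉ periodicPts (update φ q p)) ∧
          (update φ q p)^[L] p' = φ^[L] p) ∧
        φ^[L - 1] p ∈ periodicPts (update φ q p) ∧
        update φ q p (φ^[L - 1] p) = φ^[L] p) := by
  set h := update φ q p with hh
  have hhq : h q = p := by rw [hh, update_self]
  have hup : φ (φ^[L - 1] p) = φ^[L] p := by
    rw [← iterate_succ_apply' φ (L - 1) p]; congr 2; omega
  by_cases hA : ∀ i, φ^[i] p ≠ q
  · left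
    have hpi : ∀ i, h^[i] p = φ^[i] p := fun i => upd_iter φ q p p i (fun j _ => hA j)
    obtain ⟨N, x₀, h0, hN⟩ := hitmax h q
    have hz : h^[L] q = φ^[L - 1] p := by
      obtain ⟨L, rfl⟩ : ∃ k, L = k + 1 := ⟨L - 1, by omega⟩
      rw [iterate_succ_apply, hhq, hpi]; rfl
    refine uht_of (k := N + L) (z := φ^[L - 1] p) (x₀ := x₀) ?_ ?_ ?_ ?_
    · exact upd_not_per p (hp _ (by omega)) (fun i => by rw [← iterate_add_apply]; exact hA _)
    · have h1 : h (φ^[L - 1] p) = φ^[L] p := by rw [hh, update_of_ne (hA _), hup]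
      rw [h1]
      exact upd_per p (hL p) (fun i => by rw [← iterate_add_apply]; exact hA _)
    · rw [Nat.add_comm, iterate_add_apply, h0, hz]
    · intro x
      by_cases hx : ∃ n, h^[n] x = q
      · obtain ⟨n, hn⟩ := hx
        obtain ⟨n', hn', h1⟩ := hN x n hn
        right
        refine ⟨L + n', by omega, ?_⟩
        rw [iterate_add_apply, h1, hz]
      · push Not at hx
        have h1 : ∀ n, h^[n] x = φ^[n] x := fun n => upd_iter' φ q p x n (fun i _ => hx i)
        left
        apply per_mono (a := L) (by omega)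
        rw [h1]
        exact upd_per p (hL x) (fun i => by rw [← iterate_add_apply, ← h1]; exact hx _)
  · push Not at hA
    classical
    have hi₀ := Nat.find_spec hA
    have hmin : ∀ i < Nat.find hA, φ^[i] p ≠ q := fun i hi => Nat.find_min hA hi
    set i₀ := Nat.find hA with hi₀'
    have hpi : ∀ i ≤ i₀, h^[i] p = φ^[i] p := fun i hi =>
      upd_iter φ q p p i (fun j hj => hmin j (by omega))
    have hpp : p ∈ periodicPts h := by
      refine ⟨1 + i₀, by omega, ?_⟩
      show h^[1 + i₀] p = p
      rw [iterate_add_apply, hpi i₀ le_rfl, hi₀]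
      exact hhq
    rcases Nat.lt_or_ge i₀ L with hB | hC
    · right; left
      apply Set.ncard_lt_ncard _ (Set.toFinite _)
      have hqn : q ∉ periodicPts φ := hi₀ ▸ hp i₀ hB
      refine ⟨fun x hx => upd_per p hx (fun i he => hqn (he ▸ per_iter hx i)), fun hsub => ?_⟩
      exact hp 0 (by omega) (hsub hpp)
    · -- `q` lies on the cycle of the root `r`
      set r := φ^[L] p with hr'
      have hr : r ∈ periodicPts φ := hL p
      set m := minimalPeriod φ r with hm
      have hm0 : 0 < m := minimalPeriod_pos_of_mem_periodicPts hr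
      obtain ⟨e, he, heq⟩ : ∃ e < m, φ^[e] r = q := by
        refine ⟨(i₀ - L) % m, Nat.mod_lt _ hm0, ?_⟩
        rw [hm, iterate_mod_minimalPeriod_eq, hr', ← iterate_add_apply,
          Nat.sub_add_cancel hC, hi₀]
      have hq : q ∈ periodicPts φ := heq ▸ per_iter hr e
      have hpL : ∀ i ≤ L, h^[i] p = φ^[i] p := fun i hi => hpi i (by omega)
      have hre : ∀ i ≤ e, h^[i] r = φ^[i] r := fun i hi => upd_iter φ q p r i (fun j hj hjq => by
        have := cyc_inj (φ := φ) (r := r) (i := j) (j := e) (by omega) he (by rw [hjq, heq])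
        omega)
      have hc : ∀ i j, e < i → i + j ≤ m - 1 → h^[j] (φ^[i] r) = φ^[i + j] r := fun i j hi hij => by
        rw [hh, upd_iter, ← iterate_add_apply, Nat.add_comm]
        intro k hk hkq
        rw [← iterate_add_apply] at hkq
        have := cyc_inj (φ := φ) (r := r) (i := k + i) (j := e) (by omega) he (by rw [hkq, heq])
        omega
      have hB : ∀ i ≤ L, φ^[i] p ∈ periodicPts h := fun i hi => by
        rw [← hpL i hi]; exact per_iter hpp i
      have hrp : r ∈ periodicPts h := hB L le_rfl
      have hR : ∀ i ≤ e, φ^[i] r ∈ periodicPts h := fun i hi => by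
        rw [← hre i hi]; exact per_iter hrp i
      -- counting
      have hcount : (periodicPts φ).ncard + L ≤ (periodicPts h).ncard + (m - 1 - e) := by
        set A : Finset E := (Finset.Ico (e + 1) m).image (fun i => φ^[i] r) with hA'
        set B : Finset E := (Finset.range L).image (fun i => φ^[i] p) with hB'
        have hAc : A.card ≤ m - 1 - e := by
          refine Finset.card_image_le.trans ?_
          rw [Nat.card_Ico]; omega
        have hBc : B.card = L := by
          rw [hB', Finset.card_image_of_injOn, Finset.card_range]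
          intro i hi j hj hij
          simp only [Finset.coe_range, Set.mem_Iio] at hi hj
          have hij' : φ^[i] p = φ^[j] p := hij
          rcases lt_trichotomy i j with h1 | h1 | h1
          · exact absurd (per_of_eq h1 hij') (hp i hi)
          · exact h1
          · exact absurd (per_of_eq h1 hij'.symm) (hp j hj)
        have h1 : (periodicPts φ).ncard ≤ (periodicPts φ \ (A : Set E)).ncard + (A : Set E).ncard :=
          Set.ncard_le_ncard_sdiff_add_ncard _ _ (Set.toFinite _)
        have h2 : (periodicPts φ \ (A : Set E)).ncard + (B : Set E).ncard =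
            ((periodicPts φ \ (A : Set E)) ∪ (B : Set E)).ncard := by
          rw [Set.ncard_union_eq _ (Set.toFinite _) (Set.toFinite _)]
          rw [Set.disjoint_left]
          rintro x ⟨hx, -⟩ hxB
          simp only [hB', Finset.coe_image, Finset.coe_range, Set.mem_image, Set.mem_Iio] at hxB
          obtain ⟨i, hi, rfl⟩ := hxB
          exact hp i hi hx
        have h3 : ((periodicPts φ \ (A : Set E)) ∪ (B : Set E)).ncard ≤ (periodicPts h).ncard := by
          apply Set.ncard_le_ncard _ (Set.toFinite _)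
          rintro x (⟨hx, hxA⟩ | hx)
          · by_cases hxq : ∀ i, φ^[i] x ≠ q
            · exact upd_per p hx hxq
            · push Not at hxq
              obtain ⟨n, hn⟩ := hxq
              -- from `q` to `r` along the cycle
              have hqr : φ^[(m - e) + n] x = r := by
                rw [iterate_add_apply, hn, ← heq, ← iterate_add_apply,
                  show m - e + e = m by omega]
                exact isPeriodicPt_minimalPeriod φ r
              obtain ⟨i, hi, hix⟩ := cyc_back hx hqr
              by_cases hie : i ≤ e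
              · rw [← hix]; exact hR i hie
              · exact absurd (by
                  simp only [hA', Finset.coe_image, Finset.coe_Ico, Set.mem_image, Set.mem_Ico]
                  exact ⟨i, ⟨by omega, hi⟩, hix⟩) hxA
          · simp only [hB', Finset.coe_image, Finset.coe_range, Set.mem_image, Set.mem_Iio] at hx
            obtain ⟨i, hi, rfl⟩ := hx
            exact hB i (by omega)
        rw [Set.ncard_coe_finset] at h1 h2
        rw [hBc] at h2
        omega
      by_cases hd : m - 1 - e < L
      · right; left; omega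
      -- now `L ≤ m - 1 - e`
      have hsφ : φ^[m - 1] r ∈ periodicPts φ := per_iter hr _
      have hφs : φ (φ^[m - 1] r) = r := by
        rw [← iterate_succ_apply' φ (m - 1) r, show (m - 1).succ = m by omega]
        exact isPeriodicPt_minimalPeriod φ r
      set s := φ^[m - 1] r with hs'
      have hsq : s ≠ q := fun h1 => by
        have := cyc_inj (φ := φ) (r := r) (i := m - 1) (j := e) (by omega) he
          (by rw [← hs', h1, heq])
        omega
      have hhs : h s = r := by rw [hh, update_of_ne hsq, hφs]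
      have huφ : φ^[L - 1] p ∉ periodicPts φ := hp _ (by omega)
      have huh : φ^[L - 1] p ∈ periodicPts h := hB _ (by omega)
      have hne : φ^[L - 1] p ≠ q := fun h1 => huφ (by rw [h1]; exact hq)
      have hhu : h (φ^[L - 1] p) = r := by rw [hh, update_of_ne hne, hup]
      have hsh : s ∉ periodicPts h := fun h1 => huφ (by
        rw [per_inj huh h1 (hhu.trans hhs.symm)]; exact hsφ)
      have hsplit := split hL hq (r := r) ⟨m - e, by
        rw [← heq, ← iterate_add_apply, show m - e + e = m by omega]
        exact isPeriodicPt_minimalPeriod φ r⟩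
      -- every `x` is periodic within `L` steps, or meets `s`
      have hall : ∀ x, h^[L] x ∈ periodicPts h ∨ ∃ n, h^[n] x = s := by
        intro x
        obtain ⟨n, hn, h1, h2, h3⟩ := hsplit x
        have h4 : h^[n] x = φ^[n] x := upd_iter φ q p x n h2
        rcases h3 with h3 | ⟨i, hi, h3⟩
        · left
          apply per_mono hn
          rw [h4]
          exact upd_per p h1 h3
        · by_cases hie : i ≤ e
          · left
            apply per_mono hn
            rw [h4, ← h3]
            exact hR i hie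
          · right
            refine ⟨(m - 1 - i) + n, ?_⟩
            rw [iterate_add_apply, h4, ← h3, hc i (m - 1 - i) (by omega) (by omega), hs']
            congr 2; omega
      obtain ⟨N, x₀, h0, hN⟩ := hitmax h s
      rcases Nat.lt_or_ge N L with hNL | hNL
      · right; right
        have hdL : m - 1 - e = L ∧ h^[L - 1] (φ^[e + 1] r) = s := by
          have h1 : h^[m - 1 - (e + 1)] (φ^[e + 1] r) = s := by
            rw [hc (e + 1) (m - 1 - (e + 1)) (by omega) (by omega), hs']
            congr 2; omega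
          obtain ⟨n', hn', h2⟩ := hN _ _ h1
          have h3 := hc (e + 1) n' (by omega) (by omega)
          rw [h2, hs'] at h3
          have := cyc_inj (φ := φ) (r := r) (i := m - 1) (j := e + 1 + n') (by omega) (by omega) h3
          refine ⟨by omega, ?_⟩
          rw [show L - 1 = m - 1 - (e + 1) by omega]; exact h1
        obtain ⟨hd1, hd2⟩ := hdL
        refine ⟨by omega, ?_, ⟨φ^[e + 1] r, ?_, ?_⟩, huh, hhu⟩
        · intro x
          rcases hall x with h1 | ⟨n, hn⟩
          · exact h1
          · obtain ⟨n', hn', h2⟩ := hN x n hn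
            apply per_mono (a := n' + 1) (by omega)
            rw [iterate_succ_apply', h2, hhs]
            exact hrp
        · intro i hi h1
          apply hsh
          rw [← hd2]
          exact per_mono (by omega) h1
        · obtain ⟨L, rfl⟩ : ∃ k, L = k + 1 := ⟨L - 1, by omega⟩
          rw [iterate_succ_apply']
          rw [show L + 1 - 1 = L by omega] at hd2
          rw [hd2, hhs]
      · -- unique highest tree
        left
        refine uht_of (k := N) (z := s) (x₀ := x₀) hsh (by rw [hhs]; exact hrp) h0 ?_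
        intro x
        rcases hall x with h1 | ⟨n, hn⟩
        · exact Or.inl (per_mono hNL h1)
        · exact Or.inr (hN x n hn)

theorem exists_bound [Finite E] (φ : E → E) : ∃ L, ∀ x, φ^[L] x ∈ periodicPts φ := by
  classical
  have hx : ∀ x, ∃ n, φ^[n] x ∈ periodicPts φ := by
    intro x
    obtain ⟨a, b, hab, h⟩ := Finite.exists_ne_map_eq_of_infinite (fun n : ℕ => φ^[n] x)
    rcases lt_or_gt_of_ne hab with h1 | h1
    · exact ⟨a, per_of_eq h1 h⟩
    · exact ⟨b, per_of_eq h1 h.symm⟩
  choose f hf using hx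
  obtain ⟨M, hM⟩ := (Set.finite_range f).bddAbove
  exact ⟨M, fun x => per_mono (hM ⟨x, rfl⟩) (hf x)⟩

/-- **The double bunch.** Let every element of a finite set have options, and be an option of
some element. If no choice function has a unique highest tree, then everybody has exactly one
option, or two different elements have the same single option. -/
theorem double_bunch [Finite E] (G : E → Set E) (hne : ∀ x, (G x).Nonempty)
    (hpre : ∀ y, ∃ x, y ∈ G x) (hno : ∀ φ : E → E, (∀ x, φ x ∈ G x) → ¬ UHT φ) :
    (∀ x, (G x).Subsingleton) ∨ ∃ s u r, s ≠ u ∧ G s = {r} ∧ G u = {r} := by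
  classical
  obtain ⟨φ, hφ, hmax⟩ := Set.exists_max_image {φ : E → E | ∀ x, φ x ∈ G x}
    (fun φ => (periodicPts φ).ncard) (Set.toFinite _) ⟨fun x => (hne x).some, fun x => (hne x).some_mem⟩
  have hφ' : ∀ x, φ x ∈ G x := hφ
  have hch : ∀ ψ : E → E, (∀ x, ψ x ∈ G x) → ∀ a b, b ∈ G a → ∀ x, update ψ a b x ∈ G x := by
    intro ψ hψ a b hb x
    by_cases hx : x = a
    · subst hx; rw [update_self]; exact hb
    · rw [update_of_ne hx]; exact hψ x
  -- the surgery never helps for a maximal choice function
  have key : ∀ ψ : E → E, (∀ x, ψ x ∈ G x) → (periodicPts φ).ncard ≤ (periodicPts ψ).ncard →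
      ∀ L, (∀ x, ψ^[L] x ∈ periodicPts ψ) → ∀ p, (∀ i < L, ψ^[i] p ∉ periodicPts ψ) →
      ∀ s, s ∈ periodicPts ψ → ψ s = ψ^[L] p → ∀ y ∈ G s, y = ψ^[L] p := by
    intro ψ hψ hle L hL p hp s hs hsr y hy
    by_contra hne'
    rcases surgery hL hp rfl hs hsr hne' with h1 | h1
    · exact hno _ (hch ψ hψ s y hy) h1
    · have h2 := Set.ncard_lt_ncard h1 (Set.toFinite _)
      have h3 := hmax (update ψ s y) (hch ψ hψ s y hy)
      omega
  have hex := exists_bound φ
  have hL := Nat.find_spec hex
  rcases Nat.eq_zero_or_pos (Nat.find hex) with h0 | hpos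
  · left
    rw [h0] at hL
    intro x y hy y' hy'
    have h1 := key φ hφ' le_rfl 0 hL (φ x) (fun i hi => absurd hi (Nat.not_lt_zero i)) x (hL x) rfl
    rw [h1 y hy, h1 y' hy']
  · right
    set L := Nat.find hex with hLdef
    obtain ⟨p, hp0⟩ : ∃ p, φ^[L - 1] p ∉ periodicPts φ := by
      by_contra hcon
      push Not at hcon
      exact Nat.find_min hex (m := L - 1) (by omega) hcon
    have hp : ∀ i < L, φ^[i] p ∉ periodicPts φ := fun i hi h1 => hp0 (per_mono (by omega) h1)
    obtain ⟨q, hq⟩ := hpre p
    obtain ⟨s, hs, hsr⟩ := (bijOn_periodicPts φ).surjOn (hL p)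
    rcases turn (by omega) hL hp q with h1 | h1 | ⟨h1, h2, ⟨p', hp', hpp'⟩, hu, hur⟩
    · exact absurd h1 (hno _ (hch φ hφ' q p hq))
    · have h3 := hmax (update φ q p) (hch φ hφ' q p hq)
      omega
    · refine ⟨s, φ^[L - 1] p, φ^[L] p, fun h => hp0 (h ▸ hs), ?_, ?_⟩
      · obtain ⟨y, hy⟩ := hne s
        have h4 := key φ hφ' le_rfl L hL p hp s hs hsr
        exact Set.eq_singleton_iff_unique_mem.2 ⟨(h4 y hy) ▸ hy, h4⟩
      · obtain ⟨y, hy⟩ := hne (φ^[L - 1] p)
        have h4 := key (update φ q p) (hch φ hφ' q p hq) h1 L h2 p' hp' _ hu (hur.trans hpp'.symm)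
        rw [hpp'] at h4
        exact Set.eq_singleton_iff_unique_mem.2 ⟨(h4 y hy) ▸ hy, h4⟩

end Pool.Agent.H43.TR
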