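import Pool.Agent.H99.TT.Main2

/-!
# Heavy follower sets

Fair weights are pushed forward along a factor. If the vertices of `G` with heavy follower sets have
a large total share, a smallest synchronizing factor is bunchy.
-/

set_option autoImplicit false
set_option linter.unusedSectionVars false
set_option linter.deprecated false

namespace Pool.Agent.H43.TR

open Pool.Agent.H75.Bunchy Pool.Agent.H26.Bunchy Pool.Agent.H99.TT
open scoped Classical

section

noncomputable local instance (G : Graph) : Fintype G.V := Fintype.ofFinite _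
noncomputable local instance (G : Graph) : Fintype G.E := Fintype.ofFinite _

lemma fmem {α : Type*} [Fintype α] (p : α → Prop) (F : α → ℝ) :
    ∑ᶠ f ∈ {f | p f}, F f = ∑ f with p f, F f := by
  rw [finsum_mem_eq_finite_toFinset_sum _ (Set.toFinite _)]
  refine Finset.sum_congr ?_ fun _ _ => rfl
  ext x
  simp

/-- the weights pushed forward -/
noncomputable def push {G H : Graph} (ψ : G.V → H.V) (μ : G.V → ℝ) (y : H.V) : ℝ :=
  ∑ x with ψ x = y, μ x

variable {G H B : Graph}

/-- Fair weights are pushed forward to fair weights. -/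
lemma push_fair (Ψ : RightResolver G H) {v : G.V → B.V} {θ : H.V → B.V}
    (hcomm : ∀ p, θ (Ψ.v p) = v p) {pr : B.V → B.V → ℝ} {μ : G.V → ℝ} (hf : FairWeights v pr μ) :
    FairWeights θ pr (push Ψ.v μ) := by
  refine ⟨hf.pos, hf.total, fun y => ?_, fun y => ?_⟩
  · obtain ⟨x, hx⟩ := Ψ.v_surj y
    refine Finset.sum_pos (fun x _ => hf.mu_pos x) ⟨x, ?_⟩
    simp [hx]
  · rw [fmem]
    have h1 : ∀ f : H.E, pr (θ (H.src f)) (θ y) * push Ψ.v μ (H.src f) =
        ∑ x with Ψ.v x = H.src f, pr (θ (H.src f)) (θ y) * μ x := fun f => by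
      rw [push, Finset.mul_sum]
    simp only [h1]
    have h2 : push Ψ.v μ y = ∑ x with Ψ.v x = y, ∑ g with G.tgt g = x,
        pr (v (G.src g)) (v x) * μ (G.src g) := by
      rw [push]
      refine Finset.sum_congr rfl fun x _ => ?_
      rw [← hf.stat x, fmem]
    rw [h2, Finset.sum_sigma', Finset.sum_sigma']
    symm
    refine Finset.sum_bij (fun p _ => ⟨Ψ.e p.2, G.src p.2⟩) ?_ ?_ ?_ ?_
    · rintro ⟨x, g⟩ hp
      simp only [Finset.mem_sigma, Finset.mem_filter, Finset.mem_univ, true_and] at hp ⊢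
      obtain ⟨h3, h4⟩ := hp
      exact ⟨by rw [Ψ.tgt_comm, h4, h3], (Ψ.src_comm g).symm⟩
    · rintro ⟨x, g⟩ hp ⟨x', g'⟩ hp' h
      simp only [Finset.mem_sigma, Finset.mem_filter, Finset.mem_univ, true_and] at hp hp'
      simp only [Sigma.mk.injEq, heq_eq_eq] at h
      have h5 : g = g' := Ψ.edge_unique h.2 h.1
      subst h5
      rw [← hp.2, ← hp'.2]
    · rintro ⟨f, x⟩ hp
      simp only [Finset.mem_sigma, Finset.mem_filter, Finset.mem_univ, true_and] at hp
      obtain ⟨g, hg1, hg2⟩ := Ψ.exists_edge x hp.2.symm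
      refine ⟨⟨G.tgt g, g⟩, ?_, ?_⟩
      · simp only [Finset.mem_sigma, Finset.mem_filter, Finset.mem_univ, true_and, and_true]
        rw [← Ψ.tgt_comm, hg2, hp.1]
      · simp only [hg1, hg2]
    · rintro ⟨x, g⟩ hp
      simp only [Finset.mem_sigma, Finset.mem_filter, Finset.mem_univ, true_and] at hp
      obtain ⟨h3, h4⟩ := hp
      simp only
      rw [Ψ.src_comm, hcomm, ← h3, hcomm]

/-- The share of a vertex of the factor is the sum of the shares of its preimages. -/
lemma share_push (Ψ : RightResolver G H) {v : G.V → B.V} {θ : H.V → B.V}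
    (hcomm : ∀ p, θ (Ψ.v p) = v p) (μ : G.V → ℝ) (y : H.V) :
    share θ (push Ψ.v μ) y = ∑ x with Ψ.v x = y, share v μ x := by
  have h1 : ∀ K : B.V, ∑ y' with θ y' = K, push Ψ.v μ y' = ∑ x with v x = K, μ x := by
    intro K
    have h2 : ∑ x with v x = K, μ x = ∑ x ∈ Finset.univ.filter (fun x => v x = K), μ x := rfl
    rw [← Finset.sum_fiberwise_of_maps_to (s := Finset.univ.filter (fun x => v x = K))
      (t := Finset.univ.filter (fun y' => θ y' = K)) (g := Ψ.v)]
    · refine Finset.sum_congr rfl fun y' hy' => ?_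
      rw [Finset.mem_filter] at hy'
      rw [push, Finset.filter_filter]
      refine Finset.sum_congr ?_ fun _ _ => rfl
      ext x
      simp only [Finset.mem_filter, Finset.mem_univ, true_and]
      constructor
      · intro h; exact ⟨by rw [← hcomm, h, hy'.2], h⟩
      · rintro ⟨_, h⟩; exact h
    · intro x hx
      simp only [Finset.mem_filter, Finset.mem_univ, true_and] at hx ⊢
      rw [hcomm, hx]
  unfold share
  rw [fmem, h1]
  rw [push, Finset.sum_div]
  refine Finset.sum_congr rfl fun x hx => ?_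
  simp only [Finset.mem_filter, Finset.mem_univ, true_and] at hx
  rw [fmem, ← hx, hcomm]

lemma share_nonneg {v : G.V → B.V} {μ : G.V → ℝ} (hμ : ∀ x, 0 < μ x) (x : G.V) :
    0 ≤ share v μ x := by
  unfold share
  rw [fmem]
  exact div_nonneg (hμ x).le (Finset.sum_nonneg fun y _ => (hμ y).le)

/-- The share of the image of a set is at least the share of the set. -/
lemma share_image (Ψ : RightResolver G H) {v : G.V → B.V} {θ : H.V → B.V}
    (hcomm : ∀ p, θ (Ψ.v p) = v p) {μ : G.V → ℝ} (hμ : ∀ x, 0 < μ x) (C : Set G.V) :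
    ∑ᶠ z ∈ C, share v μ z ≤ ∑ᶠ y ∈ Ψ.v '' C, share θ (push Ψ.v μ) y := by
  rw [finsum_mem_eq_finite_toFinset_sum _ (Set.toFinite _),
    finsum_mem_eq_finite_toFinset_sum _ (Set.toFinite _)]
  rw [← Finset.sum_fiberwise_of_maps_to (s := (Set.toFinite C).toFinset)
    (t := (Set.toFinite (Ψ.v '' C)).toFinset) (g := Ψ.v)]
  · refine Finset.sum_le_sum fun y _ => ?_
    rw [share_push Ψ hcomm]
    refine Finset.sum_le_sum_of_subset_of_nonneg ?_ fun z _ _ => share_nonneg hμ z
    intro z hz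
    rw [Finset.mem_filter] at hz
    rw [Finset.mem_filter]
    exact ⟨Finset.mem_univ _, hz.2⟩
  · intro x hx
    rw [Set.Finite.mem_toFinset] at hx ⊢
    exact ⟨x, hx, rfl⟩

/-- The image of a collapsible set is collapsible. -/
lemma collapsible_image {Φ : RightResolver G B} (Θ : RightResolver H B) (Ψ : RightResolver G H)
    (hcomm : ∀ p, Θ.v (Ψ.v p) = Φ.v p) {C : Set G.V} (hC : Collapsible (H := B) Φ.v C) :
    Collapsible (H := B) Θ.v (Ψ.v '' C) := by
  obtain ⟨J, hJ, hu⟩ := hC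
  refine ⟨J, ?_, fun Θ' hv => ?_⟩
  · rintro _ ⟨x, hx, rfl⟩
    rw [hcomm, hJ x hx]
  · obtain ⟨u, K, hK⟩ := hu (RightResolver.comp Θ' Ψ) (by
      funext p
      rw [RightResolver.comp_v, hv, hcomm])
    refine ⟨u, Ψ.v K, ?_⟩
    rintro _ ⟨x, hx, rfl⟩
    exact RightResolver.leads_down Θ' Ψ (hK x hx)

/-- If no vertex has two followers over one vertex of a bunchy graph, the graph is bunchy. -/
lemma isBunchy_no_split {H B : Graph} (hB : IsBunchy B) (Θ : RightResolver H B)
    (hex : ∀ p J, (FollowersOver Θ.v p J).ncard < 2) : IsBunchy H := by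
  obtain ⟨M, hM, Λ, hΛ⟩ := hB
  refine ⟨M, hM, RightResolver.comp Λ Θ, fun I => ?_⟩
  refine (hΛ (Θ.v I)).comp ⟨?_, ?_, ?_⟩
  · intro q hq; rw [followers_image]; exact ⟨q, hq, rfl⟩
  · intro q hq q' hq' hqq
    by_contra hne
    have h1 : ({q, q'} : Set H.V) ⊆ FollowersOver Θ.v I (Θ.v q) := by
      rintro x (rfl | rfl)
      · exact ⟨hq, rfl⟩
      · exact ⟨hq', hqq.symm⟩
    have h2 := Set.ncard_le_ncard h1 (Set.toFinite _)
    rw [Set.ncard_pair hne] at h2
    have := hex I (Θ.v q)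
    omega
  · rw [followers_image]; exact Set.surjOn_image _ _

/-- **Heavy sets.** -/
theorem isBunchy_of_heavy (hB : IsBunchy B) {Φ : RightResolver G B} (Θ : RightResolver H B)
    (Ψ : RightResolver G H) (hcomm : ∀ p, Θ.v (Ψ.v p) = Φ.v p) {pr : B.V → B.V → ℝ}
    {μ : G.V → ℝ} (hf : FairWeights Φ.v pr μ)
    (hH : ∀ μ', FairWeights Θ.v pr μ' → (∃ y, splits Θ.v y ≠ 0) →
      3 * ∑ᶠ y, (splits Θ.v y : ℝ) * share Θ.v μ' y ≤ 2 ∧
      ∀ C : Set H.V, C.Nonempty → Collapsible (H := B) Θ.v C →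
        12 * ∑ᶠ z ∈ C, share Θ.v μ' z + 3 * ∑ᶠ y, (splits Θ.v y : ℝ) * share Θ.v μ' y ≤ 4)
    (hh : ∀ s : ℝ, 0 < s → 3 * s ≤ 2 →
      (∃ C : Set G.V, C.Nonempty ∧ Collapsible (H := B) Φ.v C ∧
        4 < 12 * ∑ᶠ z ∈ C, share Φ.v μ z + 3 * s) ∨
      s < ∑ᶠ x, ({J | 4 < 12 * ∑ᶠ z ∈ FollowersOver Φ.v x J, share Φ.v μ z + 3 * s}.ncard : ℝ) *
        share Φ.v μ x) : IsBunchy H := by
  by_cases hex : ∃ p J, 2 ≤ (FollowersOver Θ.v p J).ncard
  swap
  · push Not at hex
    exact isBunchy_no_split hB Θ hex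
  exfalso
  obtain ⟨p, J, hpJ⟩ := hex
  have hf' := push_fair Ψ hcomm hf
  have hp : splits Θ.v p ≠ 0 := by
    unfold splits
    intro h0
    rw [Set.ncard_eq_zero (Set.toFinite _), Set.eq_empty_iff_forall_notMem] at h0
    exact h0 J hpJ
  obtain ⟨hS, hC⟩ := hH _ hf' ⟨p, hp⟩
  set s : ℝ := ∑ᶠ y, (splits Θ.v y : ℝ) * share Θ.v (push Ψ.v μ) y with hs
  have hpos : ∀ y, 0 < share Θ.v (push Ψ.v μ) y := by
    intro y
    unfold share
    rw [fmem]
    refine div_pos (hf'.mu_pos y) (Finset.sum_pos (fun z _ => hf'.mu_pos z) ⟨y, ?_⟩)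
    simp
  have hs0 : 0 < s := by
    rw [hs, finsum_eq_sum_of_fintype]
    refine Finset.sum_pos' (fun y _ => mul_nonneg (Nat.cast_nonneg _) (hpos y).le)
      ⟨p, Finset.mem_univ _, mul_pos (by exact_mod_cast Nat.pos_of_ne_zero hp) (hpos p)⟩
  rcases hh s hs0 hS with ⟨C, hCne, hCC, h1⟩ | h1
  · have h2 := hC _ (hCne.image Ψ.v) (collapsible_image Θ Ψ hcomm hCC)
    have h3 := share_image Ψ hcomm hf.mu_pos C
    linarith
  -- heavy vertices split
  have hle : ∀ x, {J | 4 < 12 * ∑ᶠ z ∈ FollowersOver Φ.v x J, share Φ.v μ z + 3 * s}.ncard ≤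
      splits Θ.v (Ψ.v x) := by
    intro x
    unfold splits
    refine Set.ncard_le_ncard ?_ (Set.toFinite _)
    intro K hK
    rw [Set.mem_setOf_eq] at hK ⊢
    by_contra hlt
    rcases Set.eq_empty_or_nonempty (FollowersOver Φ.v x K) with hem | ⟨z₀, hz₀⟩
    · rw [hem, finsum_mem_empty] at hK
      linarith
    · have himg := followersOver_image Ψ Θ.v Φ.v hcomm x K
      have hall : ∀ z ∈ FollowersOver Φ.v x K, Ψ.v z = Ψ.v z₀ := by
        intro z hz
        by_contra hne
        have h4 : ({Ψ.v z, Ψ.v z₀} : Set H.V) ⊆ FollowersOver Θ.v (Ψ.v x) K := by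
          rw [himg]
          rintro w (rfl | rfl)
          · exact ⟨z, hz, rfl⟩
          · exact ⟨z₀, hz₀, rfl⟩
        have h5 := Set.ncard_le_ncard h4 (Set.toFinite _)
        rw [Set.ncard_pair hne] at h5
        exact hlt h5
      have h6 := hC {Ψ.v z₀} ⟨_, rfl⟩ (collapsible_singleton Θ.v (Ψ.v z₀))
      have h7 := share_image Ψ hcomm hf.mu_pos (FollowersOver Φ.v x K)
      have h8 : Ψ.v '' FollowersOver Φ.v x K = {Ψ.v z₀} := by
        ext w
        constructor
        · rintro ⟨z, hz, rfl⟩; exact hall z hz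
        · intro hw
          rw [Set.mem_singleton_iff] at hw
          exact ⟨z₀, hz₀, hw.symm⟩
      rw [h8] at h7
      linarith
  have h8 : s = ∑ x, (splits Θ.v (Ψ.v x) : ℝ) * share Φ.v μ x := by
    rw [hs, finsum_eq_sum_of_fintype]
    rw [← Finset.sum_fiberwise_of_maps_to (s := Finset.univ) (t := Finset.univ) (g := Ψ.v)
      (fun _ _ => Finset.mem_univ _)]
    refine Finset.sum_congr rfl fun y _ => ?_
    rw [share_push Ψ hcomm, Finset.mul_sum]
    refine Finset.sum_congr rfl fun x hx => ?_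
    simp only [Finset.mem_filter, Finset.mem_univ, true_and] at hx
    rw [hx]
  rw [finsum_eq_sum_of_fintype] at h1
  have h9 : ∑ x, ({J | 4 < 12 * ∑ᶠ z ∈ FollowersOver Φ.v x J, share Φ.v μ z + 3 * s}.ncard : ℝ) *
      share Φ.v μ x ≤ ∑ x, (splits Θ.v (Ψ.v x) : ℝ) * share Φ.v μ x := by
    refine Finset.sum_le_sum fun x _ => ?_
    exact mul_le_mul_of_nonneg_right (by exact_mod_cast hle x) (share_nonneg hf.mu_pos x)
  linarith

end

end Pool.Agent.H43.TR
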